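import Pool.Agent.H31R3.Kes.Beta
import Pool.Agent.H31R3.Kes.GEq
import Pool.Agent.H31R3.Kes.Inputs
import Pool.Agent.H160R2.SA.Arm
import Pool.Agent.H974R4.W2.Close

/-! The exponents beta and gamma of bond percolation on the square lattice. -/

namespace H974

open Finset

theorem a1_holds : H31K.A1 := by
  obtain ⟨c, C, hc, hC, h⟩ := Pool.Agent.H160R2.SA.arSharp
  intro ε he
  refine ⟨max C c⁻¹, lt_of_lt_of_le hC (le_max_left _ _), ?_⟩
  intro n hn
  have hn1 : (1:ℝ) ≤ n := by exact_mod_cast hn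
  obtain ⟨h1, h2⟩ := h n hn
  have e1 : (n:ℝ)^(-(5/48) : ℝ) ≤ (n:ℝ)^(-(5/48) + ε) :=
    Real.rpow_le_rpow_of_exponent_le hn1 (by linarith)
  have e2 : (n:ℝ)^(-(5/48) - ε) ≤ (n:ℝ)^(-(5/48) : ℝ) :=
    Real.rpow_le_rpow_of_exponent_le hn1 (by linarith)
  have p1 : 0 < (n:ℝ)^(-(5/48) : ℝ) := by positivity
  have p2 : 0 < (n:ℝ)^(-(5/48) + ε) := by positivity
  constructor
  · calc arm (1/2) n ≤ C * (n:ℝ)^(-(5/48) : ℝ) := h2
      _ ≤ C * (n:ℝ)^(-(5/48) + ε) := mul_le_mul_of_nonneg_left e1 hC.le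
      _ ≤ _ := mul_le_mul_of_nonneg_right (le_max_left _ _) p2.le
  · have h3 : 0 ≤ arm (1/2) n := le_trans (by positivity) h1
    calc (n:ℝ)^(-(5/48) - ε) ≤ (n:ℝ)^(-(5/48) : ℝ) := e2
      _ = c⁻¹ * (c * (n:ℝ)^(-(5/48) : ℝ)) := by field_simp
      _ ≤ c⁻¹ * arm (1/2) n := mul_le_mul_of_nonneg_left h1 (by positivity)
      _ ≤ _ := mul_le_mul_of_nonneg_right (le_max_right _ _) h3

theorem inp : H31K.Inp := H31K.Inp.of a1_holds H973N.stW1 (far_of_W2 stW2)

theorem beta_final : Filter.Tendsto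
    (fun p : unitInterval => Real.log (theta p) / Real.log ((p:ℝ) - (pcrit:ℝ)))
    (nhdsWithin pcrit (Set.Ioi pcrit)) (nhds (5/36)) := by
  have h := H31K.beta_eq inp
  have ht : Filter.Tendsto (fun p : unitInterval => (p:ℝ) - (pcrit:ℝ))
      (nhdsWithin pcrit (Set.Ioi pcrit)) (nhdsWithin 0 (Set.Ioi 0)) := by
    apply tendsto_nhdsWithin_of_tendsto_nhds_of_eventually_within
    · have : Filter.Tendsto (fun p : unitInterval => (p:ℝ) - (pcrit:ℝ)) (nhds pcrit)
          (nhds ((pcrit:ℝ) - (pcrit:ℝ))) :=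
        (continuous_subtype_val.sub continuous_const).tendsto pcrit
      rw [sub_self] at this
      exact this.mono_left nhdsWithin_le_nhds
    · filter_upwards [self_mem_nhdsWithin] with p hp
      have hp' : (pcrit:ℝ) < (p:ℝ) := hp
      exact Set.mem_Ioi.mpr (sub_pos.mpr hp')
  refine (h.comp ht).congr' ?_
  filter_upwards [self_mem_nhdsWithin] with p hp
  simp only [Function.comp]
  have e : Set.projIcc (0:ℝ) 1 zero_le_one (1/2 + ((p:ℝ) - (pcrit:ℝ))) = p := by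
    rw [pcrit_eq, show (1:ℝ)/2 + ((p:ℝ) - 1/2) = p by ring]
    exact Set.projIcc_val _ _
  rw [e]

theorem gamma_final : Filter.Tendsto
    (fun p : unitInterval => Real.log (sigma p).toReal / Real.log ((pcrit:ℝ) - (p:ℝ)))
    (nhdsWithin pcrit (Set.Iio pcrit)) (nhds (-(43/18))) := by
  have h := H31K.gamma_eq inp
  have ht : Filter.Tendsto (fun p : unitInterval => (pcrit:ℝ) - (p:ℝ))
      (nhdsWithin pcrit (Set.Iio pcrit)) (nhdsWithin 0 (Set.Ioi 0)) := by
    apply tendsto_nhdsWithin_of_tendsto_nhds_of_eventually_within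
    · have : Filter.Tendsto (fun p : unitInterval => (pcrit:ℝ) - (p:ℝ)) (nhds pcrit)
          (nhds ((pcrit:ℝ) - (pcrit:ℝ))) :=
        (continuous_const.sub continuous_subtype_val).tendsto pcrit
      rw [sub_self] at this
      exact this.mono_left nhdsWithin_le_nhds
    · filter_upwards [self_mem_nhdsWithin] with p hp
      have hp' : (p:ℝ) < (pcrit:ℝ) := hp
      exact Set.mem_Ioi.mpr (sub_pos.mpr hp')
  refine (h.comp ht).congr' ?_
  filter_upwards [self_mem_nhdsWithin] with p hp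
  simp only [Function.comp]
  have e : Set.projIcc (0:ℝ) 1 zero_le_one (1/2 - ((pcrit:ℝ) - (p:ℝ))) = p := by
    rw [pcrit_eq, show (1:ℝ)/2 - (1/2 - (p:ℝ)) = p by ring]
    exact Set.projIcc_val _ _
  rw [e]

end H974
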